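import Pool.Agent.Q164.PG.Main

/-!
# MP_4792b2_co: the strong pigeonhole property

The class of all matroids that are both transversal and cotransversal is strongly pigeonhole.
-/

set_option autoImplicit false

namespace Pool.Agent.Results.MP_4792b2_co.StrongPigeonhole

open Pool.Agent.Q164.PG

/-- `M` is transversal: its independent sets are the partial transversals of a finite family of
sets. -/
def IsTransversal {α : Type} (M : Matroid α) : Prop :=
  ∃ (n : ℕ) (A : Fin n → Set α), ∀ I : Set α,
    M.Indep I ↔ ∃ f : I → Fin n, Function.Injective f ∧ ∀ x : I, (x : α) ∈ A (f x)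

/-- The relation on the subsets of `U`: two sets are related if adding any set outside `U` gives
an independent set for both of them or for none. -/
def simU {α : Type} (M : Matroid α) (U : Set α) : Setoid {X : Set α // X ⊆ U} where
  r X X' := ∀ Z ⊆ M.E \ U, M.Indep (X.1 ∪ Z) ↔ M.Indep (X'.1 ∪ Z)
  iseqv := ⟨fun _ _ _ => Iff.rfl, fun h Z hZ => (h Z hZ).symm,
    fun h h' Z hZ => (h Z hZ).trans (h' Z hZ)⟩

/-- A presentation by neighbour sets. -/
lemma exists_pres {α : Type} [Fintype α] [DecidableEq α] {M : Matroid α} (h : IsTransversal M) :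
    ∃ (n : ℕ) (N : α → Finset (Fin (n + 1))), ∀ X : Finset α, Mt N X ↔ M.Indep (X : Set α) := by
  classical
  obtain ⟨n, A, hA⟩ := h
  refine ⟨n, fun x => (Finset.univ.filter (fun i => x ∈ A i)).map Fin.castSuccEmb, ?_⟩
  intro X
  rw [hA]
  constructor
  · rintro ⟨f, hf, hi⟩
    have h1 : ∀ x : (X : Set α), ∃ i : Fin n, (x : α) ∈ A i ∧ Fin.castSucc i = f x := by
      intro x
      have := hf x.1 x.2
      simpa using this
    choose g hg1 hg2 using h1
    refine ⟨g, ?_, hg1⟩
    intro x y hxy
    have h2 := hg2 x
    rw [hxy, hg2 y] at h2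
    exact Subtype.ext (hi x.2 y.2 h2.symm)
  · rintro ⟨f, hf, hi⟩
    refine ⟨fun x => if hx : x ∈ X then Fin.castSucc (f ⟨x, hx⟩) else Fin.last n, ?_, ?_⟩
    · intro x hx
      simp only [hx, dif_pos]
      have := hi ⟨x, hx⟩
      simpa using this
    · intro x hx y hy hxy
      have hx' : x ∈ X := hx
      have hy' : y ∈ X := hy
      simp only [hx', hy', dif_pos] at hxy
      have := hf (Fin.castSucc_injective _ hxy)
      simpa using this

/-- **Main theorem.** For every `lam` there is a number `π` such that for every matroid `M` that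
is both transversal and cotransversal, and every set `U` whose connectivity value is at most
`lam`, the relation on the subsets of `U` has at most `π` classes. -/
theorem result : ∀ lam : ℕ, ∃ π : ℕ, 0 < π ∧ ∀ (α : Type) [Finite α] (M : Matroid α),
    IsTransversal M → IsTransversal M✶ → ∀ U ⊆ M.E,
      M.eRk U + M.eRk (M.E \ U) ≤ M.eRank + lam → Nat.card (Quotient (simU M U)) ≤ π := by
  classical
  intro lam
  refine ⟨Nat.card (Sg lam), Nat.card_pos, ?_⟩
  intro α _ M hM hMd U hU hconn
  have := Fintype.ofFinite α
  obtain ⟨n, N, hN⟩ := exists_pres hM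
  obtain ⟨n', Nd, hNd⟩ := exists_pres hMd
  obtain ⟨J₀, hJ₀⟩ := M✶.exists_isBase
  have hcE : ∀ X : Finset α, (X : Set α) ⊆ M.E ↔ X ⊆ M.E.toFinset := by
    intro X
    constructor
    · intro h x hx
      simpa using h hx
    · intro h x hx
      have := h hx
      simpa using this
  have hcard : ∀ X : Set α, X.encard = (X.toFinset.card : ℕ∞) := by
    intro X
    rw [← Set.encard_coe_eq_coe_finsetCard]
    simp
  have hbase : ∀ B : Set α, M✶.IsBase B → B.toFinset.card = J₀.toFinset.card := by
    intro B hB
    have h1 := hB.encard_eq_encard_of_isBase hJ₀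
    rw [hcard, hcard] at h1
    exact_mod_cast h1
  have hP : Pair M.E.toFinset N Nd J₀.toFinset.card := by
    refine ⟨?_, ?_, ?_, ?_⟩
    · intro X
      rw [hN]
      constructor
      · intro h
        refine ⟨(hcE X).1 h.subset_ground, ?_⟩
        obtain ⟨B, hB, hXB⟩ := h.exists_isBase_superset
        have hB' := hB.compl_isBase_dual
        refine ⟨(M.E \ B).toFinset, ?_, ?_, by convert hbase _ hB'⟩
        · intro x hx
          simp only [Set.mem_toFinset, Set.mem_sdiff, Finset.mem_sdiff] at hx ⊢
          exact ⟨hx.1, fun hc => hx.2 (hXB hc)⟩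
        · rw [hNd]
          simpa using hB'.indep
      · rintro ⟨h1, J, h2, h3, h4⟩
        rw [hNd] at h3
        obtain ⟨B, hB, hJB⟩ := h3.exists_isBase_superset
        have h5 : J = B.toFinset := by
          refine Finset.eq_of_subset_of_card_le ?_ ?_
          · intro x hx
            simpa using hJB hx
          · rw [hbase B hB, h4]
        have h6 : M.IsBase (M.E \ B) := by
          have := hB.compl_isBase_dual
          rwa [Matroid.dual_dual, Matroid.dual_ground] at this
        refine h6.indep.subset ?_
        intro x hx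
        refine ⟨(hcE X).2 h1 hx, fun hc => ?_⟩
        have h7 : x ∈ J := by rw [h5]; simpa using hc
        exact (Finset.mem_sdiff.1 (h2 h7)).2 hx
    · intro J hJ
      rw [hNd] at hJ
      exact (hcE J).1 hJ.subset_ground
    · intro J hJ
      rw [hNd] at hJ
      obtain ⟨B, hB, hJB⟩ := hJ.exists_isBase_superset
      rw [← hbase B hB]
      refine Finset.card_le_card ?_
      intro x hx
      simpa using hJB hx
    · refine ⟨J₀.toFinset, ?_, rfl⟩
      rw [hNd]
      simpa using hJ₀.indep
  have hlam : ∀ I ⊆ U.toFinset, ∀ I' ⊆ M.E.toFinset \ U.toFinset, Mt N I → Mt N I' →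
      I.card + I'.card + J₀.toFinset.card ≤ M.E.toFinset.card + lam := by
    intro I hI I' hI' h1 h2
    rw [hN] at h1 h2
    have h3 : (I.card : ℕ∞) ≤ M.eRk U := by
      rw [← Set.encard_coe_eq_coe_finsetCard]
      refine h1.encard_le_eRk_of_subset ?_
      intro x hx
      simpa using hI hx
    have h4 : (I'.card : ℕ∞) ≤ M.eRk (M.E \ U) := by
      rw [← Set.encard_coe_eq_coe_finsetCard]
      refine h2.encard_le_eRk_of_subset ?_
      intro x hx
      simpa using hI' hx
    have h5 : M.eRank + (J₀.toFinset.card : ℕ∞) = (M.E.toFinset.card : ℕ∞) := by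
      have h6 := M.eRank_add_eRank_dual
      rw [hcard] at h6
      rw [← h6, ← hJ₀.encard_eq_eRank, hcard]
    have h7 : ((I.card + I'.card + J₀.toFinset.card : ℕ) : ℕ∞) ≤
        ((M.E.toFinset.card + lam : ℕ) : ℕ∞) := by
      push_cast
      calc (I.card : ℕ∞) + I'.card + J₀.toFinset.card
          ≤ M.eRk U + M.eRk (M.E \ U) + J₀.toFinset.card := by gcongr
        _ ≤ M.eRank + lam + J₀.toFinset.card := by gcongr
        _ = M.eRank + J₀.toFinset.card + lam := by ring
        _ = M.E.toFinset.card + lam := by rw [h5]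
    exact_mod_cast h7
  obtain ⟨sig, hsig⟩ := hP.main (by
    intro x hx
    simpa using hU (by simpa using hx)) hlam
  have key : ∀ X X' : {X : Set α // X ⊆ U}, sig X.1.toFinset = sig X'.1.toFinset →
      ∀ Z ⊆ M.E \ U, M.Indep (X.1 ∪ Z) → M.Indep (X'.1 ∪ Z) := by
    intro X X' hs Z hZ hm
    have h1 := hsig X.1.toFinset (by
      intro x hx
      simpa using X.2 (by simpa using hx)) X'.1.toFinset (by
      intro x hx
      simpa using X'.2 (by simpa using hx)) hs Z.toFinset (by
      intro x hx
      simpa using hZ (by simpa using hx))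
    rw [hN, hN] at h1
    simpa using h1 (by simpa using hm)
  have hinj : Function.Injective (fun q : Quotient (simU M U) => sig q.out.1.toFinset) := by
    intro q q' hqq
    have h1 : (simU M U).r q.out q'.out := by
      intro Z hZ
      exact ⟨key _ _ hqq Z hZ, key _ _ hqq.symm Z hZ⟩
    have h2 : Quotient.mk (simU M U) q.out = Quotient.mk (simU M U) q'.out := Quotient.sound h1
    rwa [Quotient.out_eq, Quotient.out_eq] at h2
  exact Nat.card_le_card_of_injective _ hinj

end Pool.Agent.Results.MP_4792b2_co.StrongPigeonhole
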